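import Pool.Agent.H68.Cov.Asym
import Pool.Agent.H68.Cov.Lower

/-! `m_{k,l}(n) = n ^ (⌊k/2⌋ / l + o(1))` for all `k ≥ 2` and `l ≥ 1`, with the exact lower
bound `c n ^ (⌊k/2⌋ / l)`. -/

namespace Pool.Agent.Results.MP_f91e62_co.CoveringExponent

open Pool.Agent.H68.Cov

theorem result : ∀ k l : ℕ, 2 ≤ k → 1 ≤ l →
    (∃ c : ℝ, 0 < c ∧ ∀ n : ℕ, k ≤ n →
      c * (n : ℝ) ^ (((k / 2 : ℕ) : ℝ) / (l : ℝ)) ≤ (minCov k l n : ℝ)) ∧
    (∀ ε : ℝ, 0 < ε → ∃ C : ℝ, 0 < C ∧ ∀ n : ℕ, k ≤ n →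
      (minCov k l n : ℝ) ≤ C * (n : ℝ) ^ (((k / 2 : ℕ) : ℝ) / (l : ℝ) + ε)) := by
  intro k l hk hl
  constructor
  · obtain ⟨c, hc, hlow⟩ := lower k l hk hl
    refine ⟨c, hc, ?_⟩
    intro n hn
    -- a covering exists, so the infimum is attained
    obtain ⟨C, hC⟩ := upper k l hl (ε := 1) one_pos
    obtain ⟨m, _, H, hH⟩ := hC n (by omega)
    have hne : {m : ℕ | ∃ H : Fin m → Fin k → Finset (Fin n), IsCovering k l n m H}.Nonempty :=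
      ⟨m, H, hH⟩
    obtain ⟨H', hH'⟩ := Nat.sInf_mem hne
    exact hlow n hn _ H' hH'
  · intro ε hε
    obtain ⟨C, hC⟩ := upper k l hl hε
    refine ⟨max C 1, lt_of_lt_of_le one_pos (le_max_right _ _), ?_⟩
    intro n hn
    obtain ⟨m, hm, H, hH⟩ := hC n (by omega)
    have h1 : minCov k l n ≤ m := Nat.sInf_le ⟨H, hH⟩
    have h2 : (minCov k l n : ℝ) ≤ m := by exact_mod_cast h1
    have h3 : (0 : ℝ) ≤ (n : ℝ) ^ (((k / 2 : ℕ) : ℝ) / (l : ℝ) + ε) :=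
      Real.rpow_nonneg (Nat.cast_nonneg _) _
    exact h2.trans (hm.trans (mul_le_mul_of_nonneg_right (le_max_left _ _) h3))

end Pool.Agent.Results.MP_f91e62_co.CoveringExponent
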